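import Pool.Agent.H437.MK.Nodes

/-!
# The Brauer class of a non-fine moduli space of sheaves on a K3 surface obstructs the Hasse principle

Let `f = -3 (x² + y² + 3 z²) (x² + 8 y² + 14 z²) (x² + 4 y² + 10 z²)`, let `π : Y' → ℙ²` be the double
covering `w² = f` over `ℚ`, and let `Y → Y'` be the minimal resolution. The branch curve has twelve
ordinary double points and no other singularities (part (1)), so `Y` is a K3 surface with twelve
exceptional curves `E_i` over `ℚ̄`. Let `h` be the pull-back of the class of a line (`h² = 2`), let
`v = (0, h, 2)` be the Mukai vector of the line bundles of degree `3` on the curves of the linear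
system `|h|` (`v² = 2`) and let `H = N h - ∑ E_i` with `N` large. No line is tritangent to the branch
curve (part (2)), that is, no member of `|h|` splits into two curves `C₁, C₂` with `C_i · h = 1`, and so
all `H`-semistable sheaves with Mukai vector `v` are `H`-stable. Then `X = M_H(v)` is a smooth projective
variety of dimension `4` over `ℚ`.

A sheaf `F` in `X` is supported on the preimage of a line `ℓ`. Its direct image `G` is a vector bundle
of rank `2` and degree `0` on `ℓ ≅ ℙ¹`, `G ≅ 𝒪(r) ⊕ 𝒪(-r)`, together with the multiplication
`φ : G → G(3)` by `w`, and `φ² = f|_ℓ`. For lines that avoid the nodes `F` is determined by `(G, φ)`, and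
all `(G, φ)` occur. The only endomorphisms of `(G, φ)` are the scalars. A point `x` of `X` over a field
`K` of characteristic zero with algebraic closure `L` is an isomorphism class of sheaves over `L` which
is invariant under the Galois group; it gives an invariant isomorphism class of `(G, φ)`, a point of
type `Pt K L` below, and the value `α(x)` of the Brauer class `α` of `X` is zero if and only if the
class contains a pair `(G, φ)` defined over `K` (`Pt.Split`). Moreover `2 α(x) = 0` since `G` has rank
two.

The theorem says that `α(x) = 0` for all `x` in `X(ℚ_p)`, for all primes `p`, that `α(x) ≠ 0` for all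
`x` in `X(ℝ)`, and that these sets are not empty. So for all adelic points `∑ inv_v α(x_v) = 1/2`: the
class `α` obstructs the Hasse principle on `X`.

The main points of the proof. A sheaf over `ℝ` on a line does not exist as `f` is negative definite.
If there is a point of the line `ℓ` over `ℚ_p` at which `f` is a nonzero square, then the fibre of the
sheaf at this point of the double plane rigidifies it, and all invariant classes descend. It is proved
that every line over every `ℚ_p` has such a point: for `p ≤ 31` and `p = 41` by a computation with lines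
modulo `p ^ m`, and for the other primes by Weil's bound for character sums, which applies since the
restriction of the sextic to a line modulo `p` is never a constant times a square.
-/

set_option autoImplicit false

namespace Pool.Agent.Results.MP_2dff99_ag.NonFineObstruction

open Pool.Agent.H437.MK Polynomial

/-- The local invariant of the value of the Brauer class at a point: this value is killed by `2`, and
it is zero if and only if the isomorphism class contains a sheaf defined over the local field. -/
noncomputable def inv {K L : Type*} [Field K] [Field L] [Algebra K L] (x : Pt K L) :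
    AddCircle (1 : ℚ) :=
  open Classical in if x.Split then 0 else ((1 / 2 : ℚ) : AddCircle (1 : ℚ))

/-- An adelic point: a real point and a `ℚ_[p]`-point for every prime `p`. -/
structure AdelicPt where
  /-- the real component -/
  real : Pt ℝ ℂ
  /-- the component at `p` -/
  fin : ∀ (p : ℕ) [Fact p.Prime], Pt ℚ_[p] (AlgebraicClosure ℚ_[p])

/-- The sum of the local invariants of the Brauer class at an adelic point. -/
noncomputable def AdelicPt.pairing (x : AdelicPt) : AddCircle (1 : ℚ) :=
  inv x.real + ∑ᶠ p : Nat.Primes, (haveI := Fact.mk p.2; inv (x.fin p))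

theorem result :
    -- (1) the branch curve is the union of three conics and has only ordinary double points
    (∀ v : Fin 3 → ℂ, f v = -3 * (conic 0 v * conic 1 v * conic 2 v)) ∧
    (∀ v : Fin 3 → ℂ, v ≠ 0 → ∀ i j : Fin 3, i ≠ j → conic i v = 0 → conic j v = 0 →
      (∀ k, k ≠ i → k ≠ j → conic k v ≠ 0) ∧
      LinearIndependent ℂ ![fun m => (coef i m : ℂ) * v m, fun m => (coef j m : ℂ) * v m]) ∧
    -- (2) no line is tritangent
    (∀ u w : Fin 3 → ℂ, LinearIndependent ℂ ![u, w] → ∀ P : ℂ[X], lineF u w ≠ P ^ 2) ∧
    -- (3) the real place
    (∀ u w : Fin 3 → ℝ, LinearIndependent ℝ ![u, w] → ∃ x : Pt ℝ ℂ, x.u = u ∧ x.w = w) ∧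
    (∀ x : Pt ℝ ℂ, ¬ x.Split) ∧
    -- (4) the primes
    (∀ (p : ℕ) [Fact p.Prime],
      (∀ u w : Fin 3 → ℚ_[p], LinearIndependent ℚ_[p] ![u, w] →
        (∃ s t c : ℚ_[p], c ≠ 0 ∧ f (s • u + t • w) = c ^ 2) ∧
        ∃ x : Pt ℚ_[p] (AlgebraicClosure ℚ_[p]), x.u = u ∧ x.w = w) ∧
      ∀ x : Pt ℚ_[p] (AlgebraicClosure ℚ_[p]), x.Split) ∧
    -- (5) there are adelic points, and none of them is orthogonal to the Brauer class
    Nonempty AdelicPt ∧
    ∀ x : AdelicPt, x.pairing = ((1 / 2 : ℚ) : AddCircle (1 : ℚ)) ∧ x.pairing ≠ 0 := by
  have hstd : ∀ (K : Type) [Field K], LinearIndependent K ![(![1, 0, 0] : Fin 3 → K), ![0, 1, 0]] := by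
    intro K _
    rw [LinearIndependent.pair_iff]
    intro s t h
    have h0 := congrFun h 0
    have h1 := congrFun h 1
    simp at h0 h1
    exact ⟨h0, h1⟩
  have hhalf : ((1 / 2 : ℚ) : AddCircle (1 : ℚ)) ≠ 0 := by
    intro h
    rw [AddCircle.coe_eq_zero_iff] at h
    obtain ⟨n, hn⟩ := h
    have h2 : (2 * n : ℚ) = 1 := by
      simp only [zsmul_eq_mul, mul_one] at hn
      linarith
    have h3 : 2 * n = 1 := by exact_mod_cast h2
    omega
  refine ⟨fun v => f_eq_conic v, fun v hv i j hij hi hj => nodes hv hij hi hj,
    fun u w h P => lineF_ne_sq good_charZero (cr_ne_of_indep h) P,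
    fun u w h => exists_real h, not_split_real, ?_, ?_, ?_⟩
  · intro p hp
    exact ⟨fun u w h => ⟨line_pt (cr_ne_of_indep h), exists_padic h⟩, split_padic⟩
  · obtain ⟨x, -⟩ := exists_real (hstd ℝ)
    refine ⟨⟨x, fun p _ => (exists_padic (hstd ℚ_[p])).choose⟩⟩
  · intro x
    have h1 : x.pairing = ((1 / 2 : ℚ) : AddCircle (1 : ℚ)) := by
      have h2 : inv x.real = ((1 / 2 : ℚ) : AddCircle (1 : ℚ)) := by
        simp only [inv, if_neg (not_split_real x.real)]
      have h3 : ∀ p : Nat.Primes, (haveI := Fact.mk p.2; inv (x.fin p)) = 0 := by
        intro p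
        haveI := Fact.mk p.2
        simp only [inv, if_pos (split_padic (x.fin p))]
      rw [AdelicPt.pairing, h2, finsum_congr h3, finsum_zero, add_zero]
    exact ⟨h1, by rw [h1]; exact hhalf⟩

end Pool.Agent.Results.MP_2dff99_ag.NonFineObstruction
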